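import Pool.Agent.Helper37.EF.Sym
import Pool.Agent.Helper37.EF.C2
import Pool.Agent.Helper37.EF.C3
import Pool.Agent.Helper37.EF.C4
import Pool.Agent.Helper37.EF.C5
import Pool.Agent.Helper37.EF.C6
import Pool.Agent.Helper37.EF.C7
import Pool.Agent.Helper37.EF.C8
import Pool.Agent.Helper37.EF.C9

/-!
# A non-traceable graph that universally guarantees connected EF1outer allocations
for all common additive (CA) profiles

The graph has ten vertices `0, …, 9`: a clique on `{1, 2, 5, 7, 9}`, the vertices `0` and `4`
are adjacent to `1` and `9` exactly, the vertices `3` and `6` to `2` and `5` exactly, and the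
vertex `8` to `7` exactly.  For every number `2 ≤ n ≤ 9` of agents a decision tree, whose nodes
compare the values of two disjoint vertex sets and whose leaves carry an allocation and Farkas
multipliers for its EF1outer inequalities, is checked by the kernel.
-/

namespace Pool.Agent.Results.MP_7d34d8_co.NonTraceableCA

open Finset
open scoped NNReal

section defs

variable {V : Type} [Fintype V] [DecidableEq V]

/-- `G` is traceable: it has a Hamiltonian path. -/
def Traceable (G : SimpleGraph V) : Prop :=
  ∃ (a b : V) (p : G.Walk a b), p.IsHamiltonian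

/-- `S` is nonempty and induces a connected subgraph of `G`. -/
def InducesConnected (G : SimpleGraph V) (S : Finset V) : Prop :=
  (G.induce (S : Set V)).Connected

/-- `A` is an allocation: the shares are pairwise disjoint and their union is the whole of `V`
(shares may be empty). -/
def IsAllocation {n : ℕ} (A : Fin n → Finset V) : Prop :=
  (∀ i j, i ≠ j → Disjoint (A i) (A j)) ∧ ∀ x, ∃ i, x ∈ A i

/-- `A` is a connected allocation: every nonempty share induces a connected subgraph. -/
def IsConnectedAllocation (G : SimpleGraph V) {n : ℕ} (A : Fin n → Finset V) : Prop :=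
  IsAllocation A ∧ ∀ i, (A i).Nonempty → InducesConnected G (A i)

/-- `o` is an outer vertex of `S`: `o` is in `S`, and `S` without `o` is empty or induces a
connected subgraph. -/
def IsOuter (G : SimpleGraph V) (S : Finset V) (o : V) : Prop :=
  o ∈ S ∧ (S.erase o = ∅ ∨ InducesConnected G (S.erase o))

/-- EF1outer, for the agents' valuations `v` and the shares `A`. -/
def EF1Outer (G : SimpleGraph V) {n : ℕ} (v : Fin n → Finset V → ℝ≥0) (A : Fin n → Finset V) :
    Prop :=
  ∀ i j, v i (A j) ≤ v i (A i) ∨ ∃ o, IsOuter G (A j) o ∧ v i ((A j).erase o) ≤ v i (A i)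

/-- The profile `v` is CA: all agents have the same valuation, and it is additive. -/
def IsCA {n : ℕ} (v : Fin n → Finset V → ℝ≥0) : Prop :=
  (∀ i j, v i = v j) ∧ ∀ i S, v i S = ∑ x ∈ S, v i {x}

/-- `G` universally guarantees connected EF1outer allocations for all CA profiles, for every
number `n ≥ 1` of agents. -/
def GuaranteesCA (G : SimpleGraph V) : Prop :=
  ∀ n : ℕ, 1 ≤ n → ∀ v : Fin n → Finset V → ℝ≥0, IsCA v →
    ∃ A : Fin n → Finset V, IsConnectedAllocation G A ∧ EF1Outer G v A

end defs

open Pool.Agent.Helper37.EF in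
theorem good_all (n : ℕ) (hn : 1 ≤ n) (w : Fin 10 → ℝ) (hw : ∀ i, 0 ≤ w i) : Good n w := by
  by_cases h10 : 10 ≤ n
  · exact good_large n h10 w hw
  · have h9 : n ≤ 9 := by omega
    interval_cases n
    · exact good_one w
    · exact good_of_cert t2 top2 w hw
    · exact good_of_cert t3 top3 w hw
    · exact good_of_cert t4 top4 w hw
    · exact good_of_cert t5 top5 w hw
    · exact good_of_cert t6 top6 w hw
    · exact good_of_cert t7 top7 w hw
    · exact good_of_cert t8 top8 w hw
    · exact good_of_cert t9 top9 w hw

open Pool.Agent.Helper37.EF in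
theorem guarantees : GuaranteesCA Pool.Agent.Helper37.EF.G := by
  intro n hn v hv
  obtain ⟨hcom, hadd⟩ := hv
  let i0 : Fin n := ⟨0, hn⟩
  let w : Fin 10 → ℝ := fun x => ((v i0 {x} : ℝ≥0) : ℝ)
  have hval : ∀ (i : Fin n) (S : Finset (Fin 10)), ((v i S : ℝ≥0) : ℝ) = ∑ x ∈ S, w x := by
    intro i S
    rw [hcom i i0, hadd i0 S]
    push_cast
    rfl
  obtain ⟨A, h1, h2, h3, h4⟩ := good_all n hn w (fun i => NNReal.coe_nonneg _)
  refine ⟨A, ⟨⟨h1, h2⟩, ?_⟩, ?_⟩
  · intro i hi
    rcases h3 i with h | h
    · exact absurd h hi.ne_empty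
    · exact h
  · intro i j
    rcases h4 i j with h | ⟨o, ho, h5, h6⟩
    · left
      rw [← NNReal.coe_le_coe, hval, hval]
      exact h
    · right
      refine ⟨o, ⟨ho, h5⟩, ?_⟩
      rw [← NNReal.coe_le_coe, hval, hval]
      exact h6

/-- There is a (connected) non-traceable graph, on ten vertices, that universally guarantees
connected EF1outer allocations for all CA profiles. -/
theorem result : ∃ (V : Type) (_ : Fintype V) (_ : DecidableEq V) (G : SimpleGraph V),
    Fintype.card V = 10 ∧ G.Connected ∧ ¬ Traceable G ∧ GuaranteesCA G :=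
  ⟨Fin 10, inferInstance, inferInstance, Pool.Agent.Helper37.EF.G, by simp,
    Pool.Agent.Helper37.EF.G_connected, Pool.Agent.Helper37.EF.not_traceable, guarantees⟩

end Pool.Agent.Results.MP_7d34d8_co.NonTraceableCA
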